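import Pool.Agent.Helper53.UW.Num
import Pool.Agent.Helper98.UV.ASV

/-!
# PROJECT UR3: packet PAW (the parameters for large `n`)
-/

set_option autoImplicit false

namespace Pool.Agent.Helper14.UW

open Pool.Agent.Helper65.LinSpace Pool.Agent.Helper78.Mpc Pool.Agent.Helper28.Ram Filter
open Pool.Agent.Helper65.BR (bT lT)
open Pool.Agent.Helper28.Long (ZL)
open Pool.Agent.Helper53.UR (KU)
open Pool.Agent.Helper53.UV (eV okV)
open Pool.Agent.Helper53.UW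

/-- the fifth power of the length -/
theorem ev_ll5 : ∀ᶠ n : ℕ in atTop, (ll n : ℝ) ^ 5 ≤ (n : ℝ) + 1 := by
  filter_upwards [ev_ll_le (show (0 : ℝ) < 1 / 5 by norm_num)] with n h
  have hn0 : (0 : ℝ) ≤ (n : ℝ) + 1 := by positivity
  have h1 : (ll n : ℝ) ^ 5 ≤ (((n : ℝ) + 1) ^ ((1 : ℝ) / 5)) ^ 5 :=
    pow_le_pow_left₀ (Nat.cast_nonneg _) h 5
  have h2 : (((n : ℝ) + 1) ^ ((1 : ℝ) / 5)) ^ 5 = (n : ℝ) + 1 := by
    rw [← Real.rpow_natCast, ← Real.rpow_mul hn0]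
    norm_num
  rw [h2] at h1
  exact h1

/-- the two bounds in real numbers -/
theorem reals {K N s a x L : ℝ} (hK : 1 ≤ K) (hN : 1 ≤ N) (hL1 : 1 ≤ L) (hLN : L ≤ N)
    (hL5 : L ^ 5 ≤ N) (hs0 : 0 ≤ s) (hs : s = 0 ∨ 1 ≤ s) (ha : 0 ≤ a) (hx : 0 ≤ x)
    (h1 : x * (s + L) ^ 5 ≤ K * N ^ 2) (h2 : (s + a) * (s + L) ^ 4 ≤ K * N) :
    (x + 1) * ((s + 5 * L) + 1) * ((s + 5 * L) + L) ^ 4 ≤ 300000 * K * N ^ 2 ∧
      ((s + 5 * L) + a + (s + 5 * L)) * ((s + 5 * L) + L) ^ 4 ≤ 300000 * K * N := by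
  obtain ⟨M, hM⟩ : ∃ M : ℝ, M = s + L := ⟨_, rfl⟩
  rw [← hM] at h1 h2
  have hM1 : 1 ≤ M := by linarith
  have hM0 : 0 ≤ M := by linarith
  have hM4 : 0 ≤ M ^ 4 := by positivity
  have hKN : 0 ≤ K * N := by positivity
  have hNN : N ≤ N ^ 2 := by nlinarith
  have hN2 : 0 ≤ N ^ 2 := by positivity
  have e1 : s * M ^ 4 ≤ K * N := by
    have : 0 ≤ a * M ^ 4 := by positivity
    have e : (s + a) * M ^ 4 = s * M ^ 4 + a * M ^ 4 := by ring
    linarith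
  have p1 : (s + 5 * L) + 1 ≤ 6 * M := by rw [hM]; linarith
  have p2 : (s + 5 * L) + L ≤ 6 * M := by rw [hM]; linarith
  have p3 : ((s + 5 * L) + L) ^ 4 ≤ 1296 * M ^ 4 := by
    have : ((s + 5 * L) + L) ^ 4 ≤ (6 * M) ^ 4 := pow_le_pow_left₀ (by linarith) p2 4
    calc ((s + 5 * L) + L) ^ 4 ≤ (6 * M) ^ 4 := this
      _ = 1296 * M ^ 4 := by ring
  have p4 : 0 ≤ ((s + 5 * L) + L) ^ 4 := by positivity
  have f5 : M ^ 5 ≤ 2 * K * N ^ 2 := by
    rcases hs with h | h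
    · have e : M = L := by rw [hM, h]; ring
      rw [e]
      have : 1 * N ^ 2 ≤ K * N ^ 2 := mul_le_mul_of_nonneg_right hK hN2
      nlinarith
    · have g4 : M ^ 4 ≤ K * N := by
        have : 1 * M ^ 4 ≤ s * M ^ 4 := mul_le_mul_of_nonneg_right h hM4
        linarith
      have e : M ^ 5 = s * M ^ 4 + L * M ^ 4 := by rw [hM]; ring
      have e2 : L * M ^ 4 ≤ N * (K * N) := mul_le_mul hLN g4 hM4 (by linarith)
      have e3 : K * N ≤ K * N ^ 2 := mul_le_mul_of_nonneg_left hNN (by linarith)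
      rw [e]
      nlinarith
  constructor
  · have q1 : (x + 1) * ((s + 5 * L) + 1) * ((s + 5 * L) + L) ^ 4 ≤
        (x + 1) * (6 * M) * (1296 * M ^ 4) := by
      refine mul_le_mul (mul_le_mul_of_nonneg_left p1 (by linarith)) p3 p4 (by positivity)
    have q2 : (x + 1) * (6 * M) * (1296 * M ^ 4) = 7776 * (x * M ^ 5) + 7776 * M ^ 5 := by ring
    rw [q2] at q1
    have q3 : 0 ≤ K * N ^ 2 := by positivity
    nlinarith
  · have q0 : 0 ≤ (s + 5 * L) + a + (s + 5 * L) := by linarith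
    have q1 : ((s + 5 * L) + a + (s + 5 * L)) * ((s + 5 * L) + L) ^ 4 ≤
        ((s + 5 * L) + a + (s + 5 * L)) * (1296 * M ^ 4) := mul_le_mul_of_nonneg_left p3 q0
    have q2 : ((s + 5 * L) + a + (s + 5 * L)) * (1296 * M ^ 4) =
        1296 * ((s + a) * M ^ 4) + 1296 * (s * M ^ 4) + 12960 * (L * M ^ 4) := by ring
    rw [q2] at q1
    have q3 : L * M ^ 4 ≤ 16 * (K * N) := by
      rcases le_or_gt L s with h | h
      · have : L * M ^ 4 ≤ s * M ^ 4 := mul_le_mul_of_nonneg_right h hM4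
        linarith
      · have r1 : M ≤ 2 * L := by rw [hM]; linarith
        have r2 : M ^ 4 ≤ (2 * L) ^ 4 := pow_le_pow_left₀ hM0 r1 4
        have r3 : L * M ^ 4 ≤ L * (2 * L) ^ 4 := mul_le_mul_of_nonneg_left r2 (by linarith)
        have r4 : L * (2 * L) ^ 4 = 16 * L ^ 5 := by ring
        have r5 : 1 * N ≤ K * N := mul_le_mul_of_nonneg_right hK (by linarith)
        linarith
    have q4 : 300000 * K * N = 300000 * (K * N) := by ring
    rw [q4]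
    linarith

theorem gPAW : GoalPAW := by
  intro C c
  obtain ⟨K, hK⟩ : ∃ K : ℝ, K = max C 1 := ⟨_, rfl⟩
  have hK1 : 1 ≤ K := hK ▸ le_max_right _ _
  have hCK : C ≤ K := hK ▸ le_max_left _ _
  obtain ⟨κ, hκ⟩ := exists_nat_gt (2 * K)
  filter_upwards [Pool.Agent.Helper98.UV.gASV (300000 * K), ev_ll_ge (κ * (c + 1) + κ + 1),
    ev_ll5, eventually_ge_atTop 1] with n hA hu h5 hn s a x hx hsa
  have hn1 : (1 : ℝ) ≤ n := by exact_mod_cast hn
  have hlog : ((ll n : ℕ) : ℝ) = (Nat.log 2 n : ℝ) + 1 := by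
    unfold ll
    push_cast
    ring
  have hlp := lt_two_pow_ll n
  have hllr : ll n ≤ n + 1 := ll_le n
  obtain ⟨l, hl⟩ : ∃ l : ℕ, l = ll n := ⟨_, rfl⟩
  have hgR : gR n = Nat.sqrt (n / l) + 1 := by
    unfold gR
    rw [hl]
  rw [← hlog, ← hl] at hx hsa
  rw [← hl] at hu hlp h5 hllr
  have hK0 : 0 ≤ K := by linarith
  have hl1 : 1 ≤ l := by omega
  have hl1r : (1 : ℝ) ≤ l := by exact_mod_cast hl1
  have hx0 : (0 : ℝ) ≤ x := Nat.cast_nonneg _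
  have hs0 : (0 : ℝ) ≤ s := Nat.cast_nonneg _
  have ha0 : (0 : ℝ) ≤ a := Nat.cast_nonneg _
  have hN0 : (0 : ℝ) ≤ (n : ℝ) + 1 := by linarith
  have hx' : (x : ℝ) * ((s : ℝ) + l) ^ 5 ≤ K * ((n : ℝ) + 1) ^ 2 :=
    hx.trans (mul_le_mul_of_nonneg_right hCK (by positivity))
  have hsa' : ((s : ℝ) + a) * ((s : ℝ) + l) ^ 4 ≤ K * ((n : ℝ) + 1) :=
    hsa.trans (mul_le_mul_of_nonneg_right hCK hN0)
  have hs : (s : ℝ) = 0 ∨ (1 : ℝ) ≤ s := by
    rcases Nat.eq_zero_or_pos s with h | h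
    · left
      exact_mod_cast h
    · right
      exact_mod_cast h
  obtain ⟨r1, r2⟩ := reals (K := K) (N := (n : ℝ) + 1) (s := s) (a := a) (x := x) (L := l) hK1
    (by linarith) hl1r (by exact_mod_cast hllr) h5 hs0 hs ha0 hx0 hx' hsa'
  have hV : ((s + 5 * l : ℕ) : ℝ) = (s : ℝ) + 5 * l := by push_cast; ring
  obtain ⟨T, hT, t0, t1, t2, t3, tok, tx⟩ := hA (x + 1) (s + 5 * l) (s + 5 * l) a (s + 5 * l)
    (by omega)
    (by rw [← hlog, ← hl, hV]; push_cast; exact r1)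
    (by rw [← hlog, ← hl, hV]; exact r2)
  -- the number `x`
  have hM1 : (1 : ℝ) ≤ ((s : ℝ) + l) := by linarith
  have hx2 : (x : ℝ) ≤ K * ((n : ℝ) + 1) ^ 2 := by
    have h1 : (1 : ℝ) ≤ ((s : ℝ) + l) ^ 5 := one_le_pow₀ hM1
    have h2 : (x : ℝ) * 1 ≤ x * ((s : ℝ) + l) ^ 5 := mul_le_mul_of_nonneg_left h1 hx0
    linarith
  have hx3 : x + 1 ≤ κ * (n + 1) ^ 2 := by
    have h1 : (1 : ℝ) ≤ ((n : ℝ) + 1) ^ 2 := one_le_pow₀ (by linarith)
    have h2 : (x : ℝ) + 1 ≤ κ * ((n : ℝ) + 1) ^ 2 := by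
      have h3 : 1 * ((n : ℝ) + 1) ^ 2 ≤ K * ((n : ℝ) + 1) ^ 2 :=
        mul_le_mul_of_nonneg_right hK1 (by positivity)
      have h4 : (2 * K) * ((n : ℝ) + 1) ^ 2 ≤ κ * ((n : ℝ) + 1) ^ 2 :=
        mul_le_mul_of_nonneg_right hκ.le (by positivity)
      linarith
    exact_mod_cast h2
  have hB : (c * n + 1) * (x + 1) + 1 ≤ 2 ^ (5 * l) := by
    have h1 : c * n + 1 ≤ (c + 1) * (n + 1) := by nlinarith
    have h2 : (c * n + 1) * (x + 1) ≤ ((c + 1) * (n + 1)) * (κ * (n + 1) ^ 2) :=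
      Nat.mul_le_mul h1 hx3
    have h3 : ((c + 1) * (n + 1)) * (κ * (n + 1) ^ 2) = (κ * (c + 1)) * (n + 1) ^ 3 := by ring
    have h4 : (n + 1) ^ 3 ≤ (2 ^ l) ^ 3 := Nat.pow_le_pow_left hlp 3
    have h5' : κ * (c + 1) + 1 ≤ 2 ^ l := by
      have : l < 2 ^ l := Nat.lt_two_pow_self
      omega
    have h6 : (κ * (c + 1) + 1) * (n + 1) ^ 3 ≤ 2 ^ l * (2 ^ l) ^ 3 := Nat.mul_le_mul h5' h4
    have h7 : 1 ≤ (n + 1) ^ 3 := Nat.one_le_pow _ _ (by omega)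
    have h8 : 2 ^ l * (2 ^ l) ^ 3 = 2 ^ (4 * l) := by
      rw [← pow_mul, ← pow_add]
      congr 1
      ring
    have h9 : 2 ^ (4 * l) ≤ 2 ^ (5 * l) := Nat.pow_le_pow_right (by norm_num) (by omega)
    rw [h3] at h2
    rw [h8] at h6
    have h10 : (κ * (c + 1) + 1) * (n + 1) ^ 3 = (κ * (c + 1)) * (n + 1) ^ 3 + (n + 1) ^ 3 := by
      ring
    rw [h10] at h6
    omega
  -- the bound of the states
  have hg : s + 1 ≤ gR n := by
    rw [hgR]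
    refine Nat.succ_le_succ (Nat.le_sqrt.2 ((Nat.le_div_iff_mul_le (by omega)).2 ?_))
    have h1 : (κ : ℝ) ≤ l := by
      have : κ ≤ l := by
        have : 0 ≤ κ * (c + 1) := Nat.zero_le _
        omega
      exact_mod_cast this
    have h2 : (s : ℝ) * ((s : ℝ) + l) ^ 4 ≤ K * ((n : ℝ) + 1) := by
      have e : 0 ≤ (a : ℝ) * ((s : ℝ) + l) ^ 4 := by positivity
      have e2 : ((s : ℝ) + a) * ((s : ℝ) + l) ^ 4 =
        (s : ℝ) * ((s : ℝ) + l) ^ 4 + a * ((s : ℝ) + l) ^ 4 := by ring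
      linarith
    have h3 : (s : ℝ) * s * l * l ≤ (s : ℝ) * ((s : ℝ) + l) ^ 4 := by
      have e1 : (s : ℝ) * l * l ≤ ((s : ℝ) + l) ^ 4 := by
        have e2 : (s : ℝ) ≤ (s : ℝ) + l := by linarith
        have e3 : (l : ℝ) ≤ (s : ℝ) + l := by linarith
        have e4 : (s : ℝ) * l * l ≤ ((s : ℝ) + l) * ((s : ℝ) + l) * ((s : ℝ) + l) := by
          refine mul_le_mul (mul_le_mul e2 e3 (by linarith) (by linarith)) e3 (by linarith)
            (by positivity)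
        have e5 : ((s : ℝ) + l) ^ 3 ≤ ((s : ℝ) + l) ^ 4 := pow_le_pow_right₀ hM1 (by norm_num)
        nlinarith
      have := mul_le_mul_of_nonneg_left e1 hs0
      nlinarith
    have h4 : (s : ℝ) * s * l * (2 * K) ≤ (s : ℝ) * s * l * l :=
      mul_le_mul_of_nonneg_left (hκ.le.trans h1) (by positivity)
    have h5' : (s : ℝ) * s * l * (2 * K) ≤ (n : ℝ) * (2 * K) := by
      have : K * ((n : ℝ) + 1) ≤ (n : ℝ) * (2 * K) := by nlinarith
      linarith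
    have h6 : (s : ℝ) * s * l ≤ n := le_of_mul_le_mul_right h5' (by linarith)
    exact_mod_cast h6
  refine ⟨T, hT, ?_, ?_, t1, ?_, ?_, tx⟩
  · unfold okW
    rw [tok, t0, t2, t3, ← hl]
    have e1 : eq01 (s + 5 * l) (s + 5 * l) = 1 := by simp [eq01]
    have e2 : le01 (5 * l) (s + 5 * l) = 1 := by simp [le01]
    have e3 : le01 (s + 5 * l - 5 * l + 1) (gR n) = 1 := by
      unfold le01
      rw [if_pos]
      omega
    rw [e1, e2, e3]
  · rw [t0, ← hl]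
  · rw [← hl]
    have h1 : 2 ≤ 2 ^ (s + 1) := by
      calc 2 = 2 ^ 1 := by norm_num
        _ ≤ 2 ^ (s + 1) := Nat.pow_le_pow_right (by norm_num) (by omega)
    calc 2 + 2 ^ (s + 1) * ((c * n + 1) * (x + 1)) ≤
        2 ^ (s + 1) + 2 ^ (s + 1) * ((c * n + 1) * (x + 1)) := by omega
      _ = 2 ^ (s + 1) * ((c * n + 1) * (x + 1) + 1) := by ring
      _ ≤ 2 ^ (s + 1) * 2 ^ (5 * l) := Nat.mul_le_mul_left _ hB
      _ = 2 ^ (s + 5 * l + 1) := by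
        rw [← pow_add]
        congr 1
        ring
  · rw [← hl]
    have h1 : x + 1 ≤ (c * n + 1) * (x + 1) := Nat.le_mul_of_pos_left _ (by omega)
    have h2 : 2 ^ (5 * l) ≤ 2 ^ (s + 5 * l) := Nat.pow_le_pow_right (by norm_num) (by omega)
    omega

end Pool.Agent.Helper14.UW
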